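import Pool.Agent.helper26.IM.SpecA

set_option autoImplicit false

open Finset

namespace Pool.Agent.helper26.IM

open Pool.Agent.RRank Pool.Agent.helper35.MR

/-- a family of vectors of `K^r` is spanned by `r` of its members -/
theorem EXB_base {K X : Type} [Field K] [Nonempty X] (r : ℕ) (φ : X → Fin r → K) :
    ∃ (a : Fin r → X) (c : X → Fin r → K), ∀ x i, φ x i = ∑ j, c x j * φ (a j) i := by
  classical
  obtain ⟨κ, a, -, ha2, ha3⟩ := exists_linearIndependent' K φ
  have hfin : Finite κ := ha3.finite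
  have : Fintype κ := Fintype.ofFinite κ
  have hcard : Fintype.card κ ≤ r := by
    have h := ha3.fintype_card_le_finrank
    simpa using h
  obtain ⟨j⟩ : Nonempty (κ ↪ Fin r) :=
    Function.Embedding.nonempty_of_card_le (by rw [Fintype.card_fin]; exact hcard)
  have hc : ∀ x, ∃ c : κ → K, ∑ k, c k • (φ ∘ a) k = φ x := by
    intro x
    have h1 : φ x ∈ Submodule.span K (Set.range (φ ∘ a)) := by
      rw [ha2]
      exact Submodule.subset_span ⟨x, rfl⟩
    exact Submodule.mem_span_range_iff_exists_fun K |>.mp h1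
  choose c hc using hc
  obtain ⟨x0⟩ := ‹Nonempty X›
  refine ⟨Function.extend j a (fun _ => x0), fun x i => ∑ k, if j k = i then c x k else 0, ?_⟩
  intro x i
  have h2 : ∀ k, Function.extend j a (fun _ => x0) (j k) = a k := fun k =>
    j.injective.extend_apply a _ k
  have h3 := congrFun (hc x) i
  simp only [Finset.sum_apply, Pi.smul_apply, smul_eq_mul, Function.comp] at h3
  rw [← h3]
  simp only [Finset.sum_mul]
  rw [Finset.sum_comm]
  refine Finset.sum_congr rfl fun k _ => ?_
  rw [Finset.sum_eq_single (j k)]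
  · rw [if_pos rfl, h2]
  · intro b _ hb
    rw [if_neg (Ne.symm hb), zero_mul]
  · intro h
    exact absurd (Finset.mem_univ _) h

theorem EXB_cons {K : Type} [Field K] {r : ℕ} (c : Fin r → K) (F : Fin (r + 1) → K) :
    ∑ e, (Fin.cons 1 (fun j => -c j) : Fin (r + 1) → K) e * F e =
      F 0 - ∑ j, c j * F j.succ := by
  rw [Fin.sum_univ_succ]
  simp only [Fin.cons_zero, Fin.cons_succ, one_mul, neg_mul, Finset.sum_neg_distrib]
  ring

theorem EXB_circ {K X : Type} [Field K] {r : ℕ} (P : Fin r → X → K) (X' : Set X)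
    (a : Fin r → X') (c : X' → Fin r → K)
    (h : ∀ (x : X') i, P i x = ∑ j, c x j * P i (a j)) (x : X') (i : Fin r) :
    ∑ e, (Fin.cons 1 (fun j => -c x j) : Fin (r + 1) → K) e *
      P i ((Fin.cons (x : X) (fun j => (a j : X)) : Fin (r + 1) → X) e) = 0 := by
  rw [EXB_cons]
  simp only [Fin.cons_zero, Fin.cons_succ]
  rw [← h x i, sub_self]

theorem EXB : EXB_stmt := by
  intro K _ X Y Z T r PX PY PZ 𝓊 𝓋 𝓌 hL X' hX' Y' hY' Z' hZ'
  by_contra hcon
  push Not at hcon
  have hneX : Nonempty X' := (𝓊.nonempty_of_mem hX').to_subtype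
  have hneY : Nonempty Y' := (𝓋.nonempty_of_mem hY').to_subtype
  have hneZ : Nonempty Z' := (𝓌.nonempty_of_mem hZ').to_subtype
  obtain ⟨a, cX, hX⟩ := EXB_base r (fun (x : X') i => PX i (x : X))
  obtain ⟨b, cY, hY⟩ := EXB_base r (fun (y : Y') i => PY i (y : Y))
  obtain ⟨d, cZ, hZ⟩ := EXB_base r (fun (z : Z') i => PZ i (z : Z))
  -- the reduced functions
  set H : X' → Y → Z → K := fun x y z => T x y z - ∑ j, cX x j * T (a j) y z with hH
  set G : X' → Y' → Z → K := fun x y z => H x y z - ∑ k, cY y k * H x (b k) z with hG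
  have hzero : ∀ (x : X') (y : Y') (z : Z'), G x y z - ∑ l, cZ z l * G x y (d l) = 0 := by
    intro x y z
    set B : Blk (r + 1) X Y Z K :=
      { x := Fin.cons (x : X) (fun j => (a j : X))
        y := Fin.cons (y : Y) (fun j => (b j : Y))
        z := Fin.cons (z : Z) (fun j => (d j : Z))
        μ := Fin.cons 1 (fun j => -cX x j)
        ν := Fin.cons 1 (fun j => -cY y j)
        ω := Fin.cons 1 (fun j => -cZ z j) } with hB
    have hcirc : Blk.Circ PX PY PZ B :=
      ⟨fun i => EXB_circ PX X' a cX hX x i, fun i => EXB_circ PY Y' b cY hY y i,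
        fun i => EXB_circ PZ Z' d cZ hZ z i⟩
    have hBx : ∀ e, B.x e ∈ X' := by
      intro e
      refine Fin.cases ?_ ?_ e
      · exact x.2
      · intro j; exact (a j).2
    have hBy : ∀ e, B.y e ∈ Y' := by
      intro e
      refine Fin.cases ?_ ?_ e
      · exact y.2
      · intro j; exact (b j).2
    have hBz : ∀ e, B.z e ∈ Z' := by
      intro e
      refine Fin.cases ?_ ?_ e
      · exact z.2
      · intro j; exact (d j).2
    have hval := hcon B hcirc hBx hBy hBz
    have h1 : Blk.val T B B B = ∑ g, B.ω g * ∑ f, B.ν f * ∑ e, B.μ e *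
        T (B.x e) (B.y f) (B.z g) := by
      unfold Blk.val
      simp only [Finset.mul_sum]
      calc ∑ e, ∑ f, ∑ g, B.μ e * B.ν f * B.ω g * T (B.x e) (B.y f) (B.z g)
          = ∑ e, ∑ g, ∑ f, B.μ e * B.ν f * B.ω g * T (B.x e) (B.y f) (B.z g) :=
            Finset.sum_congr rfl fun e _ => Finset.sum_comm
        _ = ∑ g, ∑ e, ∑ f, B.μ e * B.ν f * B.ω g * T (B.x e) (B.y f) (B.z g) :=
            Finset.sum_comm
        _ = ∑ g, ∑ f, ∑ e, B.μ e * B.ν f * B.ω g * T (B.x e) (B.y f) (B.z g) :=
            Finset.sum_congr rfl fun g _ => Finset.sum_comm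
        _ = _ := by
            refine Finset.sum_congr rfl fun g _ => Finset.sum_congr rfl fun f _ =>
              Finset.sum_congr rfl fun e _ => ?_
            ring
    rw [hval] at h1
    have h2 : ∀ f g, ∑ e, B.μ e * T (B.x e) (B.y f) (B.z g) = H x (B.y f) (B.z g) := by
      intro f g
      exact (EXB_cons (cX x) (fun e => T (B.x e) (B.y f) (B.z g)))
    have h3 : ∀ g, ∑ f, B.ν f * H x (B.y f) (B.z g) = G x y (B.z g) := by
      intro g
      exact (EXB_cons (cY y) (fun f => H x (B.y f) (B.z g)))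
    have h4 : ∑ g, B.ω g * G x y (B.z g) = G x y z - ∑ l, cZ z l * G x y (d l) :=
      (EXB_cons (cZ z) (fun g => G x y (B.z g)))
    simp only [h2, h3, h4] at h1
    exact h1.symm
  refine hL X' hX' Y' hY' Z' hZ' (r + r + r) ⟨r, r, r, fun i x => cX x i, fun i y z => T (a i) y z,
    fun k y => cY y k, fun k x z => H x (b k) z, fun l z => cZ z l, fun l x y => G x y (d l),
    le_rfl, ?_⟩
  intro x y z
  have h5 := hzero x y z
  have h6 : G x y z = H x y z - ∑ k, cY y k * H x (b k) z := rfl
  have h7 : H x y z = T x y z - ∑ j, cX x j * T (a j) y z := rfl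
  linear_combination h5 - h6 - h7

end Pool.Agent.helper26.IM
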