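import Pool.Agent.helper26.IM.SpecA

set_option autoImplicit false

open Finset

namespace Pool.Agent.helper26.IM

open Pool.Agent.RRank Pool.Agent.helper35.MR

/-- a subspace has a basis in echelon form -/
theorem NFC_ech {ι K : Type} [Fintype ι] [Field K] (U : Submodule K (ι → K)) :
    ∃ (A : Fin (Module.finrank K U) → ι → K) (s : Fin (Module.finrank K U) → ι),
      (∀ a, A a ∈ U) ∧ ∀ a b, A a (s b) = if a = b then 1 else 0 := by
  classical
  set f : ι → Module.Dual K U := fun i => (LinearMap.proj i : (ι → K) →ₗ[K] K).domRestrict U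
    with hf
  have hspan : Submodule.span K (Set.range f) = ⊤ := by
    rw [eq_top_iff]
    rintro φ -
    obtain ⟨ψ, hψ⟩ := LinearMap.dualMap_surjective_of_injective (f := U.subtype)
      (Submodule.injective_subtype U) φ
    have h1 : φ = ∑ i, ψ (Pi.single i 1) • f i := by
      rw [← hψ]
      ext u
      have h2 : (u : ι → K) = ∑ i, (u : ι → K) i • (Pi.single i 1 : ι → K) := by
        funext j
        simp [Finset.sum_apply, Pi.single_apply]
      change ψ (u : ι → K) = _
      conv_lhs => rw [h2]
      rw [map_sum, LinearMap.sum_apply]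
      refine Finset.sum_congr rfl fun i _ => ?_
      rw [map_smul, LinearMap.smul_apply, smul_eq_mul, smul_eq_mul, mul_comm]
      rfl
    rw [h1]
    exact Submodule.sum_mem _ fun i _ => Submodule.smul_mem _ _
      (Submodule.subset_span ⟨i, rfl⟩)
  obtain ⟨κ, a, -, ha2, ha3⟩ := exists_linearIndependent' K f
  let b : Module.Basis κ K (Module.Dual K U) := Module.Basis.mk ha3 (by rw [ha2, hspan])
  have hfin : Finite κ := Module.Finite.finite_basis b
  have : Fintype κ := Fintype.ofFinite κ
  have hcard : Fintype.card κ = Module.finrank K U := by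
    rw [← Module.finrank_eq_card_basis b, Subspace.dual_finrank_eq]
  let e : κ ≃ Fin (Module.finrank K U) := Fintype.equivFinOfCardEq hcard
  let A0 : Fin (Module.finrank K U) → U := fun i =>
    (Module.evalEquiv K U).symm (b.dualBasis (e.symm i))
  refine ⟨fun i => (A0 i : ι → K), fun i => a (e.symm i), fun i => (A0 i).2, ?_⟩
  intro i j
  have h1 : ((A0 i : U) : ι → K) (a (e.symm j)) = b (e.symm j) (A0 i) := by
    rw [Module.Basis.mk_apply]
    rfl
  have h2 : b (e.symm j) (A0 i) = b.dualBasis (e.symm i) (b (e.symm j)) := by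
    have h3 := Module.apply_evalEquiv_symm_apply (R := K) (M := U) (b (e.symm j))
      (b.dualBasis (e.symm i))
    exact h3
  change ((A0 i : U) : ι → K) (a (e.symm j)) = _
  rw [h1, h2, Module.Basis.dualBasis_apply_self]
  simp [eq_comm]

theorem NFC_ev3_add1 {ι K : Type} [Fintype ι] [Field K] (M : ι → ι → ι → K)
    (u u' v w : ι → K) : ev3 M (u + u') v w = ev3 M u v w + ev3 M u' v w := by
  simp only [ev3, ← Finset.sum_add_distrib, Pi.add_apply]
  refine Finset.sum_congr rfl fun i _ => Finset.sum_congr rfl fun j _ =>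
    Finset.sum_congr rfl fun k _ => ?_
  ring

theorem NFC_ev3_smul1 {ι K : Type} [Fintype ι] [Field K] (M : ι → ι → ι → K)
    (c : K) (u v w : ι → K) : ev3 M (c • u) v w = c * ev3 M u v w := by
  simp only [ev3, Finset.mul_sum, Pi.smul_apply, smul_eq_mul]
  refine Finset.sum_congr rfl fun i _ => Finset.sum_congr rfl fun j _ =>
    Finset.sum_congr rfl fun k _ => ?_
  ring

theorem NFC_ev3_add2 {ι K : Type} [Fintype ι] [Field K] (M : ι → ι → ι → K)
    (u v v' w : ι → K) : ev3 M u (v + v') w = ev3 M u v w + ev3 M u v' w := by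
  simp only [ev3, ← Finset.sum_add_distrib, Pi.add_apply]
  refine Finset.sum_congr rfl fun i _ => Finset.sum_congr rfl fun j _ =>
    Finset.sum_congr rfl fun k _ => ?_
  ring

theorem NFC_ev3_smul2 {ι K : Type} [Fintype ι] [Field K] (M : ι → ι → ι → K)
    (c : K) (u v w : ι → K) : ev3 M u (c • v) w = c * ev3 M u v w := by
  simp only [ev3, Finset.mul_sum, Pi.smul_apply, smul_eq_mul]
  refine Finset.sum_congr rfl fun i _ => Finset.sum_congr rfl fun j _ =>
    Finset.sum_congr rfl fun k _ => ?_
  ring

theorem NFC_ev3_add3 {ι K : Type} [Fintype ι] [Field K] (M : ι → ι → ι → K)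
    (u v w w' : ι → K) : ev3 M u v (w + w') = ev3 M u v w + ev3 M u v w' := by
  simp only [ev3, ← Finset.sum_add_distrib, Pi.add_apply]
  refine Finset.sum_congr rfl fun i _ => Finset.sum_congr rfl fun j _ =>
    Finset.sum_congr rfl fun k _ => ?_
  ring

theorem NFC_ev3_smul3 {ι K : Type} [Fintype ι] [Field K] (M : ι → ι → ι → K)
    (c : K) (u v w : ι → K) : ev3 M u v (c • w) = c * ev3 M u v w := by
  simp only [ev3, Finset.mul_sum, Pi.smul_apply, smul_eq_mul]
  refine Finset.sum_congr rfl fun i _ => Finset.sum_congr rfl fun j _ =>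
    Finset.sum_congr rfl fun k _ => ?_
  ring

theorem NFC_rank {ι K : Type} [Fintype ι] [Field K] {p : ℕ} (A : Fin p → ι → K)
    (s : Fin p → ι) (h : ∀ a b, A a (s b) = if a = b then 1 else 0) :
    Module.finrank K (Submodule.span K (Set.range A)) = p := by
  have hli : LinearIndependent K A := by
    rw [Fintype.linearIndependent_iff]
    intro g hg i
    have h1 := congrFun hg (s i)
    simp only [Finset.sum_apply, Pi.smul_apply, smul_eq_mul, h, Pi.zero_apply] at h1
    simpa using h1
  rw [finrank_span_eq_card hli, Fintype.card_fin]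

theorem NFC : NFC_stmt := by
  intro K _ ι _ M
  constructor
  · rintro ⟨p, q, r, A, B, C, s, t, u, hcard, hA, hB, hC, hM⟩ hfull
    obtain ⟨x, hx, y, hy, z, hz, hne⟩ := hfull (Submodule.span K (Set.range A))
      (Submodule.span K (Set.range B)) (Submodule.span K (Set.range C)) (by
        rw [NFC_rank A s hA, NFC_rank B t hB, NFC_rank C u hC]
        exact hcard)
    apply hne
    have h0 : ∀ v w : ι → K, ev3 M 0 v w = 0 := by
      intro v w
      simp [ev3]
    have h0' : ∀ v w : ι → K, ev3 M v 0 w = 0 := by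
      intro v w
      simp [ev3]
    have h0'' : ∀ v w : ι → K, ev3 M v w 0 = 0 := by
      intro v w
      simp [ev3]
    refine Submodule.span_induction (p := fun x _ => ev3 M x y z = 0) ?_ (h0 y z) ?_ ?_ hx
    · rintro _ ⟨a, rfl⟩
      refine Submodule.span_induction (p := fun y _ => ev3 M (A a) y z = 0) ?_ (h0' _ z) ?_ ?_ hy
      · rintro _ ⟨b, rfl⟩
        refine Submodule.span_induction (p := fun z _ => ev3 M (A a) (B b) z = 0) ?_
          (h0'' _ _) ?_ ?_ hz
        · rintro _ ⟨c, rfl⟩
          exact hM a b c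
        · intro x y _ _ hx hy
          rw [NFC_ev3_add3, hx, hy, add_zero]
        · intro c x _ hx
          rw [NFC_ev3_smul3, hx, mul_zero]
      · intro x y _ _ hx hy
        rw [NFC_ev3_add2, hx, hy, add_zero]
      · intro c x _ hx
        rw [NFC_ev3_smul2, hx, mul_zero]
    · intro x y _ _ hx hy
      rw [NFC_ev3_add1, hx, hy, add_zero]
    · intro c x _ hx
      rw [NFC_ev3_smul1, hx, mul_zero]
  · intro h
    unfold Full3 at h
    push Not at h
    obtain ⟨U, V, W, hcard, hM⟩ := h
    obtain ⟨A, s, hA1, hA2⟩ := NFC_ech U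
    obtain ⟨B, t, hB1, hB2⟩ := NFC_ech V
    obtain ⟨C, u, hC1, hC2⟩ := NFC_ech W
    exact ⟨_, _, _, A, B, C, s, t, u, hcard, hA2, hB2, hC2, fun a b c =>
      hM _ (hA1 a) _ (hB1 b) _ (hC1 c)⟩

end Pool.Agent.helper26.IM
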