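import Pool.Agent.helper26.IM.SpecA

set_option autoImplicit false

open Finset

namespace Pool.Agent.helper26.IM

open Pool.Agent.RRank Pool.Agent.helper35.MR

theorem UPL_fin {m N q : ℕ} (𝓅 : Ultrafilter ℕ) (K : ℕ → Type) [∀ n, Field (K n)] (X : ℕ → Type)
    (α : ∀ n, X n → Fin N → Fin q → K n)
    (h : ∀ n, (Set.range (α n)).Finite ∧ (Set.range (α n)).ncard ≤ m) :
    (Set.range (fun (x : ∀ n, X n) (i : Fin N) (s : Fin q) =>
      UF.mk 𝓅 (fun n => α n (x n) i s))).Finite := by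
  classical
  have hc : ∀ n, ∃ c : X n → Fin m, ∀ x x', c x = c x' → α n x = α n x' := by
    intro n
    have : Finite (Set.range (α n)) := (h n).1
    have : Fintype (Set.range (α n)) := Fintype.ofFinite _
    obtain ⟨j⟩ : Nonempty (Set.range (α n) ↪ Fin m) := by
      refine Function.Embedding.nonempty_of_card_le ?_
      rw [Fintype.card_fin, ← Nat.card_eq_fintype_card]
      exact (h n).2
    refine ⟨fun x => j ⟨α n x, x, rfl⟩, fun x x' hx => ?_⟩
    exact congrArg Subtype.val (j.injective hx)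
  choose c hc using hc
  have hv : ∀ x : (∀ n, X n), ∃ v : Fin m, ∀ᶠ n in (𝓅 : Filter ℕ), c n (x n) = v := by
    intro x
    have h1 : (⋃ v ∈ (Set.univ : Set (Fin m)), {n | c n (x n) = v}) ∈ 𝓅 := by
      have h2 : (⋃ v ∈ (Set.univ : Set (Fin m)), {n | c n (x n) = v}) = Set.univ := by
        ext n
        simp
      rw [h2]
      exact Filter.univ_mem
    rw [Ultrafilter.finite_biUnion_mem_iff Set.finite_univ] at h1
    obtain ⟨v, -, hv⟩ := h1
    exact ⟨v, hv⟩
  choose v hv using hv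
  have hsub : (Set.range (fun (x : ∀ n, X n) (i : Fin N) (s : Fin q) =>
      UF.mk 𝓅 (fun n => α n (x n) i s))) ⊆ ⋃ k : Fin m, (fun (x : ∀ n, X n) (i : Fin N)
        (s : Fin q) => UF.mk 𝓅 (fun n => α n (x n) i s)) '' {x | v x = k} := by
    rintro _ ⟨x, rfl⟩
    exact Set.mem_iUnion.mpr ⟨v x, x, rfl, rfl⟩
  refine Set.Finite.subset (Set.finite_iUnion fun k => Set.Subsingleton.finite ?_) hsub
  rintro _ ⟨x, hx, rfl⟩ _ ⟨x', hx', rfl⟩
  funext i s
  rw [UF.mk_eq_mk]
  filter_upwards [hv x, hv x'] with n h1 h2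
  have h3 : c n (x n) = c n (x' n) := by
    rw [h1, h2]
    exact (show v x = v x' from (show v x = k from hx).trans (show v x' = k from hx').symm)
  rw [hc n _ _ h3]

theorem UPL (hUPG : UPG_stmt) (hUAC : UAC_stmt) : UPL_stmt := by
  intro l N q m fx fy fz H
  choose K hK1 hK2 X Y Z T α β γ h1 h2 h3 h4 h5 h6 using H
  have hG := hUPG l K X Y Z T h1 h2
  refine ⟨UF (Filter.hyperfilter ℕ) K, inferInstance, hUAC ℕ (Filter.hyperfilter ℕ) K,
    ∀ n, X n, ∀ n, Y n, ∀ n, Z n, fun x y z =>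
      UF.mk (Filter.hyperfilter ℕ) (fun n => T n (x n) (y n) (z n)), N, q,
    fun x i s => UF.mk (Filter.hyperfilter ℕ) (fun n => α n (x n) i s),
    fun y i s => UF.mk (Filter.hyperfilter ℕ) (fun n => β n (y n) i s),
    fun z i s => UF.mk (Filter.hyperfilter ℕ) (fun n => γ n (z n) i s), hG.1, hG.2, ?_, ?_, ?_, ?_⟩
  · intro x y z
    have e : (UF.mk (Filter.hyperfilter ℕ) (fun n => T n (x n) (y n) (z n))) ^ N +
        ∑ i : Fin N, (∑ s : Fin q, UF.mk (Filter.hyperfilter ℕ) (fun n => α n (x n) i s) *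
          UF.mk (Filter.hyperfilter ℕ) (fun n => β n (y n) i s) *
          UF.mk (Filter.hyperfilter ℕ) (fun n => γ n (z n) i s)) *
          UF.mk (Filter.hyperfilter ℕ) (fun n => T n (x n) (y n) (z n)) ^ (i : ℕ) =
        UF.mk (Filter.hyperfilter ℕ) ((fun n => T n (x n) (y n) (z n)) ^ N +
          ∑ i : Fin N, (∑ s : Fin q, (fun n => α n (x n) i s) * (fun n => β n (y n) i s) *
            (fun n => γ n (z n) i s)) * (fun n => T n (x n) (y n) (z n)) ^ (i : ℕ)) := by
      simp only [map_add, map_pow, map_sum, map_mul]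
    rw [e]
    have e2 : ((fun n => T n (x n) (y n) (z n)) ^ N +
          ∑ i : Fin N, (∑ s : Fin q, (fun n => α n (x n) i s) * (fun n => β n (y n) i s) *
            (fun n => γ n (z n) i s)) * (fun n => T n (x n) (y n) (z n)) ^ (i : ℕ)) = 0 := by
      funext n
      have := h3 n (x n) (y n) (z n)
      simpa using this
    rw [e2, map_zero]
  · intro hf
    exact UPL_fin (m := m) (Filter.hyperfilter ℕ) K X α (fun n => h4 n hf)
  · intro hf
    exact UPL_fin (m := m) (Filter.hyperfilter ℕ) K Y β (fun n => h5 n hf)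
  · intro hf
    exact UPL_fin (m := m) (Filter.hyperfilter ℕ) K Z γ (fun n => h6 n hf)

end Pool.Agent.helper26.IM
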